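import Pool.Agent.helper32.EXC.Spec11

set_option autoImplicit false

open Finset

namespace Pool.Agent.EXC

theorem T11YCL_smul {n : ℕ} (C : Matrix (Fin n) (Fin n) ℤ) [IsC C] {F : Type} [Field F] (c t : F) (a v : Lm C F) :
    xe C (c • a) t v = xe C a (c * t) v := by
  unfold xe
  rw [br_smul_left, fm_smul_left, smul_smul, smul_smul]
  have e1 : t * c = c * t := mul_comm _ _
  have e2 : t ^ 2 * (c * fm C a v) * c = (c * t) ^ 2 * fm C a v := by ring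
  rw [e1, e2]

theorem T11YCL_zero {n : ℕ} (C : Matrix (Fin n) (Fin n) ℤ) [IsC C] {F : Type} [Field F] (a v : Lm C F) :
    xe C a 0 v = v := by
  unfold xe
  rw [zero_smul, add_zero, zero_pow two_ne_zero, zero_mul, zero_smul, add_zero]

theorem T11YCL_one {n : ℕ} (C : Matrix (Fin n) (Fin n) ℤ) [IsC C] {F : Type} [Field F] (a : Lm C F)
    (g : Lm C F ≃ₗ[F] Lm C F) (h : IsX C a 0 g) : g = 1 := by
  apply LinearEquiv.ext
  intro v
  rw [h v, T11YCL_zero]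
  rfl

theorem T11YCL_one' {n : ℕ} (C : Matrix (Fin n) (Fin n) ℤ) [IsC C] {F : Type} [Field F] (a : Lm C F) :
    IsX C a 0 (1 : Lm C F ≃ₗ[F] Lm C F) := by
  intro v
  rw [T11YCL_zero]
  rfl

theorem T11YCL (hNBR : NBR_stmt) (hGEO : GEO_stmt) (hEXF : EXF_stmt) (hTPF : TPF_stmt) (hTSY : TSY_stmt) (hXAU : XAU_stmt) : T11YCL_stmt := by
  intro n C _ F _ j0 θ δ hE x hRA hx
  obtain ⟨hnb, _⟩ := hNBR n C j0 θ δ hE
  obtain ⟨_, _, hF, _⟩ := hEXF n C F hnb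
  obtain ⟨a, a', m, ha, ha', hIm, hTp, hm⟩ := hGEO n C F j0 θ δ hE x hRA hx
  obtain ⟨t0, ht0, ht0X⟩ := (hF a ha).2.2.2.2.1 1
  set t : EG C F := ⟨t0, ht0⟩ with htdef
  obtain ⟨s, hs⟩ := (hIm t).1 ⟨1, ht0X⟩
  have hs0 : s ≠ 0 := by
    intro h0
    rw [h0] at hs
    have h1 := T11YCL_one C a' _ hs
    have h2 : x t = 1 := Subtype.ext h1
    have h3 : t = 1 := by
      apply x.injective
      rw [h2, map_one]
    have h4 : t0 = 1 := congrArg Subtype.val h3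
    rw [h4] at ht0X
    have h5 := (hF a ha).2.2.2.2.2.2.1 1 0 1 ht0X (T11YCL_one' C a)
    exact one_ne_zero h5
  have hTp2 : Tp C θ (s • a') ((-1 : F) • a) m :=
    (hTPF n C F θ hE.th2 hnb a' a m (hTSY n C F j0 θ δ hE a a' m hTp)).2.2.2.1 s (-1) hs0
      (neg_ne_zero.2 one_ne_zero)
  have hfm := (hTPF n C F θ hE.th2 hnb _ _ m hTp2).2.2.2.2.2.1
  have hinv : IsX C ((-1 : F) • a) 1 t0⁻¹ := by
    obtain ⟨h, hh, hhX⟩ := (hF a ha).2.2.2.2.1 (-1)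
    have h1 := (hF a ha).2.2.2.2.2.2.2.2 1 (-1) t0 h ht0X hhX
    rw [add_neg_cancel] at h1
    have h2 : t0 * h = 1 := T11YCL_one C a _ h1
    have h3 : t0⁻¹ = h := inv_eq_of_mul_eq_one_right h2
    intro v
    rw [h3, hhX v, T11YCL_smul, mul_one]
  refine ⟨t, m, fm C (s • a') ((-1 : F) • a), ?_, hfm, s • a', (-1 : F) • a,
    ((x t : EG C F) : Lm C F ≃ₗ[F] Lm C F), t0⁻¹, hTp2, rfl, ?_, hinv, ?_⟩
  · exact hm
  · intro v
    rw [hs v, T11YCL_smul, mul_one]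
  · rfl

end Pool.Agent.EXC
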